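import Mathlib

namespace Pool.Agent.Results.MP_45ad35_al.PartitionCovering

/-- o-conjugacy: `a g = g b` and `b h = h a` for some `g, h` in `S¹`. -/
def OConj {S : Type*} [Semigroup S] (a b : S) : Prop :=
  ∃ g h : WithOne S, (a : WithOne S) * g = g * b ∧ (b : WithOne S) * h = h * a

lemma exists_commGroup (Q : Type*) [Nonempty Q] : Nonempty (CommGroup Q) := by
  cases finite_or_infinite Q with
  | inl h =>
    haveI : NeZero (Nat.card Q) := ⟨Nat.card_pos.ne'⟩
    have e : Q ≃ Multiplicative (ZMod (Nat.card Q)) :=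
      (Finite.card_eq.1 (by simp)).some
    exact ⟨e.commGroup⟩
  | inr h =>
    have e : Q ≃ Multiplicative (Q →₀ ℤ) := by
      refine (Cardinal.eq.1 ?_).some
      have : Cardinal.mk (Multiplicative (Q →₀ ℤ)) = Cardinal.mk (Q →₀ ℤ) := rfl
      rw [this, Cardinal.mk_finsupp_lift_of_infinite]
      simp [Cardinal.infinite_iff.1 h]
    exact ⟨e.commGroup⟩

theorem result (X : Type*) [Nonempty X] (τ : Setoid X) :
    ∃ inst : Semigroup X, ∀ a b : X, @OConj X inst a b ↔ τ a b := by
  haveI : Nonempty (Quotient τ) := ⟨Quotient.mk τ (Classical.arbitrary X)⟩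
  obtain ⟨G⟩ := exists_commGroup (Quotient τ)
  letI inst : Semigroup X :=
    { mul := fun a b => (Quotient.mk τ a * Quotient.mk τ b).out
      mul_assoc := fun a b c => by
        change (Quotient.mk τ (Quotient.mk τ a * Quotient.mk τ b).out * Quotient.mk τ c).out =
          (Quotient.mk τ a * Quotient.mk τ (Quotient.mk τ b * Quotient.mk τ c).out).out
        rw [Quotient.out_eq, Quotient.out_eq, mul_assoc] }
  have hmul : ∀ a b : X, a * b = (Quotient.mk τ a * Quotient.mk τ b).out := fun _ _ => rfl
  refine ⟨inst, fun a b => ⟨?_, fun h => ?_⟩⟩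
  · rintro ⟨g, -, hg, -⟩
    induction g using WithOne.recOneCoe with
    | one =>
      rw [mul_one, one_mul, WithOne.coe_inj] at hg
      rw [hg]
    | coe g =>
      rw [← WithOne.coe_mul, ← WithOne.coe_mul, WithOne.coe_inj, hmul, hmul, Quotient.out_inj,
        mul_comm, mul_right_inj] at hg
      exact Quotient.exact hg
  · have h' : Quotient.mk τ a = Quotient.mk τ b := Quotient.sound h
    refine ⟨a, a, ?_, ?_⟩ <;>
      rw [← WithOne.coe_mul, ← WithOne.coe_mul, WithOne.coe_inj, hmul, hmul, h']

end Pool.Agent.Results.MP_45ad35_al.PartitionCovering
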